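import Mathlib

/-!
# MP_bef951_gt, Q1: a homeomorphism of `ℝⁿ` with no lift to a symplectic homeomorphism of `T^*ℝⁿ`

For every `n ≥ 1` there is a homeomorphism `φ` of `ℝⁿ`, a limit of diffeomorphisms uniformly on compact
sets, such that no symplectic homeomorphism `ψ` of `T^*ℝⁿ` satisfies `π ∘ ψ = φ ∘ π`.

Proof.  A limit `ψ` of symplectic diffeomorphisms does not decrease the volume of a compact set.  Let
`K ⊆ (0, 1)` be closed, with positive measure and dense complement, and let `F` be the primitive of the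
indicator function of the complement of `K`.  Then `F` is a homeomorphism of the line, a limit of
diffeomorphisms (the primitives of smooth positive functions which tend to this indicator function), and
`F(K)` is a null set.  Let `φ` act as `F` on every coordinate.  If `π ∘ ψ = φ ∘ π`, then `ψ` maps the
compact set `Kⁿ × B`, `B` the unit ball of the fibre, into the null set `F(K)ⁿ × ℝⁿ`.
-/

set_option autoImplicit false

open MeasureTheory Set Filter Topology
open scoped ENNReal ContDiff

noncomputable section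

namespace Pool.Agent.Results.MP_bef951_gt.NoLift

/-- `ℝⁿ`. -/
abbrev V (n : ℕ) : Type := EuclideanSpace ℝ (Fin n)

/-- The cotangent bundle `T^*ℝⁿ = ℝⁿ × ℝⁿ`; a point is `(q, p)`, and the projection to `ℝⁿ` is
`(q, p) ↦ q`. -/
abbrev TV (n : ℕ) : Type := V n × V n

/-- The canonical symplectic form `∑ dq_i ∧ dp_i` of `T^*ℝⁿ`. -/
def omega {n : ℕ} (u v : TV n) : ℝ := ∑ i : Fin n, (u.1 i * v.2 i - v.1 i * u.2 i)

/-- The homeomorphism `f` of the normed space `E` is a diffeomorphism. -/
def IsDiffeo {E : Type*} [NormedAddCommGroup E] [NormedSpace ℝ E] (f : E ≃ₜ E) : Prop :=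
  ContDiff ℝ ∞ f ∧ ContDiff ℝ ∞ f.symm

/-- The homeomorphism `f` of `T^*ℝⁿ` is a symplectic diffeomorphism. -/
def IsSymplecticDiffeo {n : ℕ} (f : TV n ≃ₜ TV n) : Prop :=
  IsDiffeo f ∧ ∀ z u v : TV n, omega (fderiv ℝ f z u) (fderiv ℝ f z v) = omega u v

/-- The homeomorphism `g` of `E` is the limit, uniformly on compact sets, of a sequence of
homeomorphisms of `E` with the property `P`. -/
def IsC0Limit {E : Type*} [UniformSpace E] (P : (E ≃ₜ E) → Prop) (g : E ≃ₜ E) : Prop :=
  ∃ f : ℕ → E ≃ₜ E, (∀ k, P (f k)) ∧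
    ∀ C : Set E, IsCompact C → TendstoUniformlyOn (fun k => (f k : E → E)) g atTop C

/-- A Poisson homeomorphism of `ℝⁿ` with the zero bracket, for which all diffeomorphisms are Poisson
diffeomorphisms: a `C⁰` limit of diffeomorphisms. -/
def IsPoissonHomeo {n : ℕ} (φ : V n ≃ₜ V n) : Prop := IsC0Limit IsDiffeo φ

/-- A symplectic homeomorphism of `T^*ℝⁿ`: a `C⁰` limit of symplectic diffeomorphisms. -/
def IsSymplecticHomeo {n : ℕ} (ψ : TV n ≃ₜ TV n) : Prop := IsC0Limit IsSymplecticDiffeo ψ

/-! ### The line -/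

/-- There is a closed subset of the open interval `(0, 1)` with positive measure and dense complement. -/
lemma exists_fat : ∃ K : Set ℝ, IsClosed K ∧ K ⊆ Ioo 0 1 ∧ 0 < volume K ∧ Dense Kᶜ := by
  have hnull : volume (range ((↑) : ℚ → ℝ)) = 0 := (countable_range _).measure_zero _
  obtain ⟨U, hU, hUo, hUv⟩ := Set.exists_isOpen_lt_of_lt (μ := (volume : Measure ℝ))
    (range ((↑) : ℚ → ℝ)) 1 (by rw [hnull]; norm_num)
  refine ⟨Icc 0 1 \ U, isClosed_Icc.sdiff hUo, ?_, ?_, ?_⟩
  · rintro x ⟨⟨h0, h1⟩, hx⟩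
    refine ⟨lt_of_le_of_ne h0 ?_, lt_of_le_of_ne h1 ?_⟩
    · rintro rfl
      exact hx (hU ⟨0, by simp⟩)
    · rintro rfl
      exact hx (hU ⟨1, by simp⟩)
  · have h1 : volume (Icc (0:ℝ) 1) ≤ volume (Icc (0:ℝ) 1 \ U) + volume U := by
      calc volume (Icc (0:ℝ) 1) ≤ volume ((Icc (0:ℝ) 1 \ U) ∪ U) := by
            apply measure_mono
            intro x hx
            by_cases h : x ∈ U
            · exact Or.inr h
            · exact Or.inl ⟨hx, h⟩
        _ ≤ _ := measure_union_le _ _
    by_contra h0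
    have h0' : volume (Icc (0:ℝ) 1 \ U) = 0 := by simpa using h0
    rw [h0', zero_add] at h1
    simp at h1
    exact absurd hUv (not_lt.2 h1)
  · apply Rat.denseRange_cast.mono
    intro x hx hx'
    exact hx'.2 (hU hx)

/-- The primitive of a suitable density is a homeomorphism of the line. -/
lemma exists_homeo (h : ℝ → ℝ) (hint : ∀ a b : ℝ, IntervalIntegrable h volume a b)
    (hpos : ∀ x y, x < y → 0 < ∫ t in x..y, h t)
    (c : ℝ) (hc0 : 0 < c) (C : ℝ)
    (htop : ∀ x, 1 ≤ x → c * x - C ≤ ∫ t in (0:ℝ)..x, h t)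
    (hbot : ∀ x, x ≤ 0 → (∫ t in (0:ℝ)..x, h t) ≤ c * x) :
    ∃ F : ℝ ≃ₜ ℝ, ∀ x, F x = ∫ t in (0:ℝ)..x, h t := by
  have hc : Continuous (fun x => ∫ t in (0:ℝ)..x, h t) :=
    intervalIntegral.continuous_primitive hint 0
  have hmono : StrictMono (fun x => ∫ t in (0:ℝ)..x, h t) := by
    intro x y hxy
    have := hpos x y hxy
    have h2 := intervalIntegral.integral_add_adjacent_intervals (hint 0 x) (hint x y)
    simp only
    linarith
  have htop' : Tendsto (fun x => ∫ t in (0:ℝ)..x, h t) atTop atTop := by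
    refine tendsto_atTop_mono' _ (f₁ := fun x => c * x - C) ?_ ?_
    · filter_upwards [eventually_ge_atTop (1:ℝ)] with x hx using htop x hx
    · exact tendsto_atTop_add_const_right _ _ (tendsto_id.const_mul_atTop hc0)
  have hbot' : Tendsto (fun x => ∫ t in (0:ℝ)..x, h t) atBot atBot := by
    refine tendsto_atBot_mono' _ (f₁ := fun x => c * x) ?_ ?_
    · filter_upwards [eventually_le_atBot (0:ℝ)] with x hx using hbot x hx
    · exact (tendsto_id.const_mul_atBot hc0)
  have hsurj := hc.surjective htop' hbot'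
  refine ⟨(hmono.orderIsoOfSurjective _ hsurj).toHomeomorph, fun x => rfl⟩

/-- For a closed `K ⊆ (0, 1)` with dense complement there is a homeomorphism of the line, a limit of
diffeomorphisms, which maps `K` onto a null set. -/
lemma line (K : Set ℝ) (hK : IsClosed K) (hK1 : K ⊆ Ioo 0 1) (hKd : Dense Kᶜ) :
    ∃ F : ℝ ≃ₜ ℝ, ∃ Fk : ℕ → ℝ ≃ₜ ℝ, (∀ k, ContDiff ℝ ∞ (Fk k)) ∧ (∀ k, ContDiff ℝ ∞ (Fk k).symm) ∧
      TendstoLocallyUniformly (fun k => (Fk k : ℝ → ℝ)) F atTop ∧ volume (F '' K) = 0 := by
  classical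
  -- the density of F
  set χ : ℝ → ℝ := indicator Kᶜ (fun _ => 1) with hχ
  have hχm : Measurable χ := measurable_const.indicator hK.isOpen_compl.measurableSet
  have hχ0 : ∀ x, 0 ≤ χ x := fun x => indicator_nonneg (fun _ _ => zero_le_one) x
  have hχ1 : ∀ x, χ x ≤ 1 := fun x => indicator_le_self' (fun _ _ => zero_le_one) x
  have hχout : ∀ x, x ∉ K → χ x = 1 := fun x hx => indicator_of_mem (by exact hx) _
  have hχin : ∀ x, x ∈ K → χ x = 0 := fun x hx => indicator_of_notMem (by simpa using hx) _
  have hχint : ∀ a b : ℝ, IntervalIntegrable χ volume a b := by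
    intro a b
    refine (intervalIntegrable_const (c := (1:ℝ))).mono_fun hχm.aestronglyMeasurable ?_
    filter_upwards with x
    simpa [abs_of_nonneg (hχ0 x)] using hχ1 x
  have hχpos : ∀ x y, x < y → 0 < ∫ t in x..y, χ t := by
    intro x y hxy
    obtain ⟨z, hz1, hz2⟩ := hKd.exists_between hxy
    -- an interval around z inside Kᶜ ∩ (x,y)
    have hop : IsOpen (Kᶜ ∩ Ioo x y) := hK.isOpen_compl.inter isOpen_Ioo
    have hvol : 0 < volume (Kᶜ ∩ Ioo x y) := hop.measure_pos _ ⟨z, hz1, hz2⟩
    rw [intervalIntegral.integral_of_le hxy.le]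
    rw [setIntegral_pos_iff_support_of_nonneg_ae]
    · refine hvol.trans_le (measure_mono ?_)
      rintro w ⟨hw1, hw2⟩
      refine ⟨?_, Ioo_subset_Ioc_self hw2⟩
      rw [Function.mem_support, hχout w hw1]
      exact one_ne_zero
    · filter_upwards with w using hχ0 w
    · exact (hχint x y).1
  obtain ⟨F, hF⟩ : ∃ F : ℝ ≃ₜ ℝ, ∀ x, F x = ∫ t in (0:ℝ)..x, χ t := by
    refine exists_homeo χ hχint hχpos 1 one_pos 1 ?_ ?_
    · intro x hx
      have e1 : (∫ t in (1:ℝ)..x, χ t) = ∫ t in (1:ℝ)..x, (1:ℝ) := by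
        apply intervalIntegral.integral_congr_ae
        filter_upwards with t ht
        rw [uIoc_of_le hx] at ht
        exact hχout t (fun hK' => absurd (hK1 hK').2 (not_lt.2 ht.1.le))
      rw [intervalIntegral.integral_const] at e1
      have e2 := intervalIntegral.integral_add_adjacent_intervals (hχint 0 1) (hχint 1 x)
      have e3 := hχpos 0 1 one_pos
      simp only [smul_eq_mul, mul_one] at e1
      linarith
    · intro x hx
      have e1 : (∫ t in (0:ℝ)..x, χ t) = ∫ t in (0:ℝ)..x, (1:ℝ) := by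
        apply intervalIntegral.integral_congr_ae
        filter_upwards with t ht
        rw [uIoc_of_ge hx] at ht
        exact hχout t (fun hK' => absurd (hK1 hK').1 (not_lt.2 ht.2))
      rw [e1, intervalIntegral.integral_const]
      simp
  -- the densities of the F_k
  obtain ⟨g, hg1, hg2, hg3⟩ := hK.isOpen_compl.exists_contDiff_support_eq (n := ⊤)
  have hg01 : ∀ x, 0 ≤ g x ∧ g x ≤ 1 := fun x => hg3 (mem_range_self x)
  have hgin : ∀ x, x ∈ K → g x = 0 := by
    intro x hx
    by_contra h
    have : x ∈ Function.support g := h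
    rw [hg1] at this
    exact this hx
  have hgout : ∀ x, x ∉ K → 0 < g x := by
    intro x hx
    have : x ∈ Function.support g := by rw [hg1]; exact hx
    exact lt_of_le_of_ne (hg01 x).1 (Ne.symm this)
  set h : ℕ → ℝ → ℝ := fun k t => 1 - (1 - g t) ^ (k + 1) + 1 / ((k : ℝ) + 1) with hh
  have hhs : ∀ k, ContDiff ℝ ∞ (h k) := by
    intro k
    exact (contDiff_const.sub ((contDiff_const.sub hg2).pow _)).add contDiff_const
  have hpow : ∀ k x, 0 ≤ (1 - g x) ^ (k + 1) ∧ (1 - g x) ^ (k + 1) ≤ 1 := by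
    intro k x
    exact ⟨pow_nonneg (by linarith [(hg01 x).2]) _,
      pow_le_one₀ (by linarith [(hg01 x).2]) (by linarith [(hg01 x).1])⟩
  have hk1 : ∀ k : ℕ, 0 < 1 / ((k : ℝ) + 1) ∧ 1 / ((k : ℝ) + 1) ≤ 1 := by
    intro k
    refine ⟨by positivity, ?_⟩
    rw [div_le_one (by positivity)]
    have : (0:ℝ) ≤ k := Nat.cast_nonneg k
    linarith
  have hlow : ∀ (k : ℕ) x, 1 / ((k : ℝ) + 1) ≤ h k x := by
    intro k x
    simp only [hh]
    linarith [(hpow k x).2]
  have hup : ∀ k x, h k x ≤ 2 := by
    intro k x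
    simp only [hh]
    linarith [(hpow k x).1, (hk1 k).2]
  have hkint : ∀ k, ∀ a b : ℝ, IntervalIntegrable (h k) volume a b := fun k a b =>
    (hhs k).continuous.intervalIntegrable a b
  have hkmono : ∀ (k : ℕ) x y, x ≤ y → 1 / ((k : ℝ) + 1) * (y - x) ≤ ∫ t in x..y, h k t := by
    intro k x y hxy
    have := intervalIntegral.integral_mono_on hxy (intervalIntegrable_const (c := 1 / ((k : ℝ) + 1)))
      (hkint k x y) (fun t _ => hlow k t)
    rw [intervalIntegral.integral_const, smul_eq_mul] at this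
    linarith
  have hFk : ∀ k, ∃ Fk : ℝ ≃ₜ ℝ, ∀ x, Fk x = ∫ t in (0:ℝ)..x, h k t := by
    intro k
    refine exists_homeo (h k) (hkint k) ?_ (1 / ((k : ℝ) + 1)) (hk1 k).1 0 ?_ ?_
    · intro x y hxy
      exact lt_of_lt_of_le (mul_pos (hk1 k).1 (by linarith)) (hkmono k x y hxy.le)
    · intro x hx
      have := hkmono k 0 x (by linarith)
      simpa using this
    · intro x hx
      have := hkmono k x 0 hx
      rw [intervalIntegral.integral_symm]
      linarith
  choose Fk hFk using hFk
  have hderiv : ∀ k x, HasDerivAt (Fk k) (h k x) x := by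
    intro k x
    have h1 : ((Fk k : ℝ → ℝ)) = fun x => ∫ t in (0:ℝ)..x, h k t := funext (hFk k)
    rw [h1]
    exact intervalIntegral.integral_hasDerivAt_right (hkint k 0 x)
      ((hhs k).continuous.stronglyMeasurableAtFilter _ _) (hhs k).continuous.continuousAt
  have hsm : ∀ k, ContDiff ℝ ∞ (Fk k) := by
    intro k
    rw [contDiff_infty_iff_deriv]
    refine ⟨fun x => (hderiv k x).differentiableAt, ?_⟩
    have : deriv (Fk k) = h k := funext fun x => (hderiv k x).deriv
    rw [this]
    exact hhs k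
  refine ⟨F, Fk, hsm, ?_, ?_, ?_⟩
  · intro k
    exact (Fk k).contDiff_symm_deriv (f' := h k) (fun x => ne_of_gt (lt_of_lt_of_le (hk1 k).1 (hlow k x)))
      (hderiv k) (hsm k)
  · rw [tendstoLocallyUniformly_iff_forall_isCompact]
    intro C hC
    obtain ⟨R, hR0, hR⟩ := hC.isBounded.subset_closedBall_lt 0 (0:ℝ)
    have hlim : Tendsto (fun k => ∫ t in (-R)..R, |h k t - χ t|) atTop (𝓝 (∫ t in (-R)..R, (0:ℝ))) := by
      refine intervalIntegral.tendsto_integral_filter_of_dominated_convergence (fun _ => (3:ℝ)) ?_ ?_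
        intervalIntegrable_const ?_
      · filter_upwards with k
        exact ((hhs k).continuous.measurable.sub hχm).norm.aestronglyMeasurable
      · filter_upwards with k
        filter_upwards with t _
        rw [Real.norm_eq_abs, abs_abs, abs_le]
        constructor
        · linarith [hlow k t, (hk1 k).1, hχ1 t]
        · linarith [hup k t, hχ0 t]
      · filter_upwards with t _
        have h1 : Tendsto (fun k : ℕ => 1 / ((k : ℝ) + 1)) atTop (𝓝 0) := tendsto_one_div_add_atTop_nhds_zero_nat
        have h2 : Tendsto (fun k => h k t) atTop (𝓝 (χ t)) := by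
          by_cases ht : t ∈ K
          · rw [hχin t ht]
            simpa [hh, hgin t ht] using h1
          · rw [hχout t ht]
            have h3 : Tendsto (fun k : ℕ => (1 - g t) ^ (k + 1)) atTop (𝓝 0) := by
              have := tendsto_pow_atTop_nhds_zero_of_lt_one (r := 1 - g t) (by linarith [(hg01 t).2])
                (by linarith [hgout t ht])
              exact (tendsto_add_atTop_iff_nat 1).2 this
            have h4 := (tendsto_const_nhds (x := (1:ℝ)).sub h3).add h1
            simpa [hh] using h4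
        have h5 := (h2.sub_const (χ t)).abs
        simpa using h5
    rw [intervalIntegral.integral_const, smul_zero] at hlim
    rw [Metric.tendstoUniformlyOn_iff]
    intro ε hε
    filter_upwards [hlim.eventually (gt_mem_nhds hε)] with k hk x hx
    have hxR : |x| ≤ R := by simpa using hR hx
    have hxR' := abs_le.1 hxR
    rw [dist_comm, Real.dist_eq, hF, hFk, ← intervalIntegral.integral_sub (hkint k 0 x) (hχint 0 x)]
    refine lt_of_le_of_lt ?_ hk
    calc |∫ t in (0:ℝ)..x, (h k t - χ t)| ≤ abs (∫ t in (0:ℝ)..x, |h k t - χ t|) := by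
          rw [← Real.norm_eq_abs]
          refine (intervalIntegral.norm_integral_le_abs_integral_norm).trans_eq ?_
          simp [Real.norm_eq_abs]
      _ ≤ ∫ t in (-R)..R, |h k t - χ t| := by
          refine intervalIntegral.abs_integral_mono_interval ?_ ?_ ?_ |>.trans_eq (abs_of_nonneg ?_)
          · rw [uIoc_of_le (by linarith : -R ≤ R)]
            rcases le_total 0 x with h0 | h0
            · rw [uIoc_of_le h0]; exact Ioc_subset_Ioc (by linarith) hxR'.2
            · rw [uIoc_of_ge h0]; exact Ioc_subset_Ioc hxR'.1 hR0.le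
          · filter_upwards with t using abs_nonneg _
          · exact ((hkint k _ _).sub (hχint _ _)).abs
          · exact intervalIntegral.integral_nonneg (by linarith) (fun t _ => abs_nonneg _)
  · have hmap : (volume : Measure ℝ) = Measure.map F ((volume : Measure ℝ).restrict (Kᶜ)) := by
      apply Real.measure_ext_Ioo_rat
      intro a b
      rw [Measure.map_apply F.continuous.measurable measurableSet_Ioo]
      rcases le_or_gt (b : ℝ) a with hab | hab
      · rw [Ioo_eq_empty (by simpa using hab)]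
        simp
      · have hmono : StrictMono F := by
          intro x y hxy
          have := hχpos x y hxy
          have h2 := intervalIntegral.integral_add_adjacent_intervals (hχint 0 x) (hχint x y)
          rw [hF, hF]
          linarith
        have hpre : F ⁻¹' Ioo (a:ℝ) b = Ioo (F.symm a) (F.symm b) := by
          ext x
          simp only [mem_preimage, mem_Ioo]
          rw [← hmono.lt_iff_lt (a := F.symm a), ← hmono.lt_iff_lt (b := F.symm b)]
          simp
        have hlt : F.symm a < F.symm b := by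
          rw [← hmono.lt_iff_lt]; simpa using hab
        have e1 : (b : ℝ) - a = ∫ t in (F.symm a)..(F.symm b), χ t := by
          have h2 := intervalIntegral.integral_add_adjacent_intervals (hχint 0 (F.symm a))
            (hχint (F.symm a) (F.symm b))
          rw [← hF, ← hF] at h2
          simp only [Homeomorph.apply_symm_apply] at h2
          linarith
        rw [hpre, Real.volume_Ioo, e1, intervalIntegral.integral_of_le hlt.le, hχ,
          setIntegral_indicator hK.isOpen_compl.measurableSet, setIntegral_const]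
        rw [Measure.restrict_apply measurableSet_Ioo, smul_eq_mul, mul_one, Measure.real,
          ENNReal.ofReal_toReal]
        · exact measure_congr ((Ioo_ae_eq_Ioc.symm).inter (ae_eq_refl _))
        · exact ((measure_mono inter_subset_left).trans_lt (by simp)).ne
    rw [hmap, Measure.map_apply F.continuous.measurable (F.isClosed_image.2 hK).measurableSet,
      F.injective.preimage_image, Measure.restrict_apply hK.measurableSet]
    simp


/-! ### Volume -/

/-- The canonical form as a bilinear form. -/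
def form (n : ℕ) : LinearMap.BilinForm ℝ (TV n) :=
  LinearMap.mk₂ ℝ omega
    (by intro a b c; simp only [omega, ← Finset.sum_add_distrib]
        exact Finset.sum_congr rfl fun i _ => by simp; ring)
    (by intro a b c; simp only [omega, smul_eq_mul, Finset.mul_sum]
        exact Finset.sum_congr rfl fun i _ => by simp; ring)
    (by intro a b c; simp only [omega, ← Finset.sum_add_distrib]
        exact Finset.sum_congr rfl fun i _ => by simp; ring)
    (by intro a b c; simp only [omega, smul_eq_mul, Finset.mul_sum]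
        exact Finset.sum_congr rfl fun i _ => by simp; ring)

lemma form_apply {n : ℕ} (u v : TV n) : form n u v = omega u v := rfl

lemma form_nondegenerate (n : ℕ) : (form n).Nondegenerate := by
  have key : ∀ u : TV n, omega u (-u.2, u.1) = ∑ i, (u.1 i ^ 2 + u.2 i ^ 2) := by
    intro u
    simp only [omega]
    exact Finset.sum_congr rfl fun i _ => by simp; ring
  have key2 : ∀ u : TV n, (∑ i, (u.1 i ^ 2 + u.2 i ^ 2)) = 0 → u = 0 := by
    intro u hu
    rw [Finset.sum_eq_zero_iff_of_nonneg (fun i _ => by positivity)] at hu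
    ext i
    · have := hu i (Finset.mem_univ i)
      have h1 : u.1 i ^ 2 = 0 := by nlinarith [sq_nonneg (u.1 i), sq_nonneg (u.2 i)]
      simpa using h1
    · have := hu i (Finset.mem_univ i)
      have h1 : u.2 i ^ 2 = 0 := by nlinarith [sq_nonneg (u.1 i), sq_nonneg (u.2 i)]
      simpa using h1
  refine ⟨fun u hu => key2 u ?_, fun u hu => key2 u ?_⟩
  · rw [← key]; exact hu _
  · have h1 := hu (-u.2, u.1)
    rw [form_apply] at h1
    rw [← key]
    have h2 : omega u (-u.2, u.1) = - omega (-u.2, u.1) u := by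
      simp only [omega, ← Finset.sum_neg_distrib]
      exact Finset.sum_congr rfl fun i _ => by ring
    rw [h2, h1, neg_zero]

lemma abs_det_eq_one {n : ℕ} (A : TV n →L[ℝ] TV n) (hA : ∀ u v, omega (A u) (A v) = omega u v) :
    |A.det| = 1 := by
  classical
  set b := Module.finBasis ℝ (TV n)
  have h1 : (form n).comp (A : TV n →ₗ[ℝ] TV n) (A : TV n →ₗ[ℝ] TV n) = form n := by
    refine LinearMap.ext fun u => LinearMap.ext fun v => ?_
    exact hA u v
  have h2 := LinearMap.BilinForm.toMatrix_comp b b (form n) (A : TV n →ₗ[ℝ] TV n) (A : TV n →ₗ[ℝ] TV n)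
  rw [h1] at h2
  have h3 := congrArg Matrix.det h2
  rw [Matrix.det_mul, Matrix.det_mul, Matrix.det_transpose, LinearMap.det_toMatrix] at h3
  have h4 : (LinearMap.BilinForm.toMatrix b (form n)).det ≠ 0 :=
    (LinearMap.BilinForm.nondegenerate_iff_det_ne_zero b).1 (form_nondegenerate n)
  have h5 : A.det = LinearMap.det (A : TV n →ₗ[ℝ] TV n) := rfl
  rw [← h5] at h3
  have h6 : A.det ^ 2 = 1 := by
    have : (LinearMap.BilinForm.toMatrix b (form n)).det * (A.det ^ 2 - 1) = 0 := by linarith
    rcases mul_eq_zero.1 this with h | h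
    · exact absurd h h4
    · linarith
  rw [← sq_abs] at h6
  nlinarith [abs_nonneg A.det, h6]

/-- Symplectic diffeomorphisms preserve the volume. -/
lemma volume_image {n : ℕ} (f : TV n ≃ₜ TV n) (hf : IsSymplecticDiffeo f) (s : Set (TV n))
    (hs : MeasurableSet s) : volume (f '' s) = volume s := by
  have hd : Differentiable ℝ f := hf.1.1.differentiable (by simp)
  have : (volume : Measure (TV n)).IsAddHaarMeasure := by
    rw [Measure.volume_eq_prod]
    infer_instance
  rw [← lintegral_abs_det_fderiv_eq_addHaar_image volume hs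
    (fun x _ => (hd x).hasFDerivAt.hasFDerivWithinAt) f.injective.injOn]
  simp [abs_det_eq_one _ (hf.2 _)]

/-- A symplectic homeomorphism does not decrease the volume of a compact set. -/
lemma volume_le {n : ℕ} (ψ : TV n ≃ₜ TV n) (hψ : IsSymplecticHomeo ψ) (C : Set (TV n))
    (hC : IsCompact C) : volume C ≤ volume (ψ '' C) := by
  obtain ⟨f, hf, hlim⟩ := hψ
  refine le_of_forall_gt fun r hr => ?_
  obtain ⟨U, hU1, hU2, hU3⟩ := Set.exists_isOpen_lt_of_lt (μ := (volume : Measure (TV n))) _ r hr
  obtain ⟨δ, hδ, hδU⟩ := (hC.image ψ.continuous).exists_thickening_subset_open hU2 hU1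
  obtain ⟨k, hk⟩ := (Metric.tendstoUniformlyOn_iff.1 (hlim C hC) δ hδ).exists
  rw [← volume_image (f k) (hf k) C hC.measurableSet]
  refine lt_of_le_of_lt (measure_mono ?_) hU3
  rintro _ ⟨x, hx, rfl⟩
  refine hδU (Metric.mem_thickening_iff.2 ⟨ψ x, mem_image_of_mem _ hx, ?_⟩)
  rw [dist_comm]
  exact hk x hx

/-! ### The coordinatewise homeomorphism -/

/-- Acting as `F` on every coordinate. -/
def coord (n : ℕ) (F : ℝ ≃ₜ ℝ) : V n ≃ₜ V n :=
  ((EuclideanSpace.equiv (Fin n) ℝ).toHomeomorph.trans (Homeomorph.piCongrRight fun _ => F)).trans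
    (EuclideanSpace.equiv (Fin n) ℝ).symm.toHomeomorph

lemma coord_apply (n : ℕ) (F : ℝ ≃ₜ ℝ) (x : V n) (i : Fin n) : coord n F x i = F (x i) := rfl

lemma coord_symm_apply (n : ℕ) (F : ℝ ≃ₜ ℝ) (x : V n) (i : Fin n) :
    (coord n F).symm x i = F.symm (x i) := rfl

lemma coord_isDiffeo (n : ℕ) (F : ℝ ≃ₜ ℝ) (h1 : ContDiff ℝ ∞ F) (h2 : ContDiff ℝ ∞ F.symm) :
    IsDiffeo (coord n F) := by
  constructor
  · rw [contDiff_euclidean]
    intro i
    exact h1.comp (EuclideanSpace.proj i : V n →L[ℝ] ℝ).contDiff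
  · rw [contDiff_euclidean]
    intro i
    exact h2.comp (EuclideanSpace.proj i : V n →L[ℝ] ℝ).contDiff

lemma coord_limit (n : ℕ) (F : ℝ ≃ₜ ℝ) (Fk : ℕ → ℝ ≃ₜ ℝ)
    (h : TendstoLocallyUniformly (fun k => (Fk k : ℝ → ℝ)) F atTop) (C : Set (V n))
    (hC : IsCompact C) :
    TendstoUniformlyOn (fun k => (coord n (Fk k) : V n → V n)) (coord n F) atTop C := by
  rw [tendstoLocallyUniformly_iff_forall_isCompact] at h
  rw [Metric.tendstoUniformlyOn_iff]
  intro ε hε
  have h1 : ∀ i : Fin n, ∀ᶠ k in atTop, ∀ t ∈ (fun x : V n => x i) '' C,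
      dist (F t) (Fk k t) < ε / (n + 1) := by
    intro i
    have hc : Continuous fun x : V n => x i := (EuclideanSpace.proj i : V n →L[ℝ] ℝ).continuous
    exact Metric.tendstoUniformlyOn_iff.1 (h _ (hC.image hc)) _ (by positivity)
  filter_upwards [eventually_all.2 h1] with k hk x hx
  have h2 : ∀ i : Fin n, dist (coord n F x i) (coord n (Fk k) x i) < ε / (n + 1) := by
    intro i
    rw [coord_apply, coord_apply]
    exact hk i _ (mem_image_of_mem _ hx)
  rw [EuclideanSpace.dist_eq, Real.sqrt_lt' hε]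
  calc ∑ i, dist (coord n F x i) (coord n (Fk k) x i) ^ 2 ≤ ∑ i : Fin n, (ε / (n + 1)) ^ 2 := by
        refine Finset.sum_le_sum fun i _ => ?_
        exact pow_le_pow_left₀ dist_nonneg (h2 i).le 2
    _ = n * (ε / (n + 1)) ^ 2 := by simp
    _ < ε ^ 2 := by
        rw [div_pow, mul_div_assoc', div_lt_iff₀ (by positivity)]
        have hn : (0:ℝ) ≤ n := Nat.cast_nonneg n
        have hε2 : 0 < ε ^ 2 := by positivity
        nlinarith [mul_nonneg hn hn, mul_pos hε2 hε2, mul_nonneg hn hε2.le]

/-- The cube over a subset of the line. -/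
def cube (n : ℕ) (S : Set ℝ) : Set (V n) := {x | ∀ i, x i ∈ S}

lemma volume_cube (n : ℕ) (S : Set ℝ) (hS : MeasurableSet S) :
    volume (cube n S) = volume S ^ n := by
  have h := (PiLp.volume_preserving_ofLp (Fin n)).measure_preimage
    (MeasurableSet.univ_pi fun _ : Fin n => hS).nullMeasurableSet
  have h2 : (@WithLp.ofLp 2 (Fin n → ℝ)) ⁻¹' (Set.pi univ fun _ : Fin n => S) = cube n S := by
    ext x
    simp [cube]
  rw [h2] at h
  rw [h, volume_pi_pi]
  simp

lemma isCompact_cube (n : ℕ) (S : Set ℝ) (hS : IsCompact S) : IsCompact (cube n S) := by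
  have h1 : IsCompact (Set.pi univ fun _ : Fin n => S) := isCompact_univ_pi fun _ => hS
  have h2 : cube n S = (EuclideanSpace.equiv (Fin n) ℝ).symm.toHomeomorph ''
      (Set.pi univ fun _ : Fin n => S) := by
    ext x
    constructor
    · intro hx
      exact ⟨EuclideanSpace.equiv (Fin n) ℝ x, fun i _ => hx i, by simp⟩
    · rintro ⟨y, hy, rfl⟩ i
      exact hy i (mem_univ i)
  rw [h2]
  exact h1.image (Homeomorph.continuous _)

lemma image_cube (n : ℕ) (S : Set ℝ) (F : ℝ ≃ₜ ℝ) : coord n F '' cube n S ⊆ cube n (F '' S) := by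
  rintro _ ⟨x, hx, rfl⟩ i
  exact ⟨x i, hx i, rfl⟩

/-- For every `n ≥ 1` there is a Poisson homeomorphism `φ` of `ℝⁿ` with the zero bracket such that no
symplectic homeomorphism `ψ` of the canonical integration `T^*ℝⁿ` satisfies `π ∘ ψ = φ ∘ π`. -/
theorem result (n : ℕ) (hn : 1 ≤ n) :
    ∃ φ : V n ≃ₜ V n, IsPoissonHomeo φ ∧
      ∀ ψ : TV n ≃ₜ TV n, IsSymplecticHomeo ψ → ¬ ∀ z : TV n, (ψ z).1 = φ z.1 := by
  obtain ⟨K, hK, hK1, hKv, hKd⟩ := exists_fat
  obtain ⟨F, Fk, hF1, hF2, hF3, hF4⟩ := line K hK hK1 hKd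
  refine ⟨coord n F, ⟨fun k => coord n (Fk k), fun k => coord_isDiffeo n _ (hF1 k) (hF2 k),
    coord_limit n F Fk hF3⟩, ?_⟩
  intro ψ hψ hlift
  have hKc : IsCompact K := isCompact_Icc.of_isClosed_subset hK (hK1.trans Ioo_subset_Icc_self)
  set B : Set (V n) := Metric.closedBall 0 1 with hB
  have hC : IsCompact (cube n K ×ˢ B) := (isCompact_cube n K hKc).prod (isCompact_closedBall _ _)
  have h1 := volume_le ψ hψ _ hC
  have h2 : ψ '' (cube n K ×ˢ B) ⊆ Prod.fst ⁻¹' (cube n (F '' K)) := by
    rintro _ ⟨z, hz, rfl⟩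
    rw [mem_preimage, hlift]
    exact image_cube n K F (mem_image_of_mem _ hz.1)
  have hFK : MeasurableSet (F '' K) := (F.isClosedMap K hK).measurableSet
  have h3 : volume (Prod.fst ⁻¹' (cube n (F '' K)) : Set (TV n)) = 0 := by
    refine Measure.quasiMeasurePreserving_fst.preimage_null ?_
    rw [volume_cube n _ hFK, hF4]
    exact zero_pow (by omega)
  have h4 : volume (cube n K ×ˢ B) = 0 := le_antisymm (h1.trans ((measure_mono h2).trans h3.le)) bot_le
  rw [Measure.volume_eq_prod, Measure.prod_prod, volume_cube n K hK.measurableSet, mul_eq_zero] at h4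
  rcases h4 with h | h
  · exact hKv.ne' (pow_eq_zero_iff (by omega)|>.1 h)
  · exact (Metric.measure_closedBall_pos volume (0 : V n) one_pos).ne' h

end Pool.Agent.Results.MP_bef951_gt.NoLift
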